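import Pool.Agent.ShghY.PrimeY

/-!
# Standard classes with respect to all points
-/

namespace ShghT

open MvPolynomial

variable {F K : Type*} [Field F] [Field K] [Algebra F K] {s : ℕ}

/-- Standard classes with `K · D ≤ 3`. -/
theorem std_K3 (hs : 9 ≤ s) (D : ℕ) (P : Fin s → Fin 2 → K)
    (hP : AlgebraicIndependent F (fun ij : Fin s × Fin 2 => P ij.1 ij.2)) (μ : Fin s → ℕ)
    (hstd : ∀ i j l, i ≠ j → i ≠ l → j ≠ l → μ i + μ j + μ l ≤ D)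
    (hK : (∑ i, (μ i : ℤ)) - 3 * D ≤ 3) :
    (Module.finrank K (LS D μ P) : ℤ) =
      max 0 (((D + 2).choose 2 : ℤ) - ∑ i, ((μ i + 1).choose 2 : ℤ)) := by
  obtain ⟨c, hc, hanti, hmax⟩ := exists_nine hs μ
  refine final_Y P hP D μ c hc hanti hmax (hstd _ _ _ (hc.ne (by decide)) (hc.ne (by decide))
    (hc.ne (by decide))) (Or.inl ?_)
  have : ((∑ i, μ i : ℕ) : ℤ) ≤ ((3 * D + 3 : ℕ) : ℤ) := by
    push_cast
    linarith
  exact_mod_cast this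

/-- Standard classes with `K · D ≤ - K_9 · D`. -/
theorem std_K9 (D : ℕ) (P : Fin s → Fin 2 → K)
    (hP : AlgebraicIndependent F (fun ij : Fin s × Fin 2 => P ij.1 ij.2)) (μ : Fin s → ℕ)
    (hstd : ∀ i j l, i ≠ j → i ≠ l → j ≠ l → μ i + μ j + μ l ≤ D)
    (c : Fin 9 → Fin s) (hc : Function.Injective c) (hanti : Antitone fun l => μ (c l))
    (hmax : ∀ i, i ∉ Set.range c → ∀ l, μ i ≤ μ (c l)) (hne : D ≠ μ (c 0) + 2 * μ (c 8))
    (hK : (∑ i, (μ i : ℤ)) - 3 * D ≤ 3 * D - ∑ l, (μ (c l) : ℤ)) :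
    (Module.finrank K (LS D μ P) : ℤ) =
      max 0 (((D + 2).choose 2 : ℤ) - ∑ i, ((μ i + 1).choose 2 : ℤ)) := by
  refine final_Y P hP D μ c hc hanti hmax (hstd _ _ _ (hc.ne (by decide)) (hc.ne (by decide))
    (hc.ne (by decide))) (Or.inr ⟨?_, hne⟩)
  have : ((∑ i, μ i + ∑ l, μ (c l) : ℕ) : ℤ) ≤ ((6 * D : ℕ) : ℤ) := by
    push_cast
    linarith
  exact_mod_cast this

end ShghT
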