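import Pool.Agent.ShghY.PlaceY
import Pool.Agent.ShghW.FinalW

/-!
# Theorem Y
-/

namespace ShghT

open MvPolynomial

theorem big_append {r n : ℕ} (m : Fin r → ℕ) :
    big (Fin.append m (fun _ : Fin n => 1)) = big m := by
  rw [big, big, Fin.sum_univ_add]
  simp

theorem big_le {r : ℕ} (m : Fin r → ℕ) : big m ≤ ∑ i, m i := by
  rw [big]
  refine Finset.sum_le_sum fun i _ => ?_
  split_ifs <;> omega

/-- **Theorem Y**, for sorted multiplicities. -/
theorem main_Y {F K : Type*} [Field F] [Field K] [Algebra F K] {r : ℕ}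
    (P : Fin (9 + r) → Fin 2 → K)
    (hP : AlgebraicIndependent F (fun ij : Fin (9 + r) × Fin 2 => P ij.1 ij.2))
    (δ : ℕ) (M : Fin 9 → ℕ) (m : Fin r → ℕ) (e : ℕ) (hstd : Std δ M e) (hm : ∀ i, m i ≤ M 8)
    (h : e ≤ 2 ∨ (big m ≤ 2 * e ∧ (δ ≠ M 0 + 2 * M 8 ∨ big m ≤ e + 3))) (χ : ℤ)
    (hχ : χ = ((δ + 2).choose 2 : ℤ) - ∑ l, ((M l + 1).choose 2 : ℤ) -
      ∑ i, ((m i + 1).choose 2 : ℤ)) :
    (Module.finrank K (LS δ (Fin.append M m) P) : ℤ) = max 0 χ := by
  have : Infinite K := infinite_of_algebraicIndependent _ hP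
  by_cases he2 : e ≤ 2
  · exact main_W P hP δ M m e hstd hm (Or.inl he2) χ hχ
  · obtain ⟨h1, h2⟩ := h.resolve_left he2
    have he : 0 < e := by omega
    have hsum := sum_Qd hstd he
    have hlow := le_finrank_LS δ (Fin.append M m) P
    rw [Fin.sum_univ_add] at hlow
    simp only [Fin.append_left, Fin.append_right] at hlow
    obtain ⟨n, hn⟩ : ∃ n, n = ∑ x ∈ Finset.range e, Qd δ M e x - ∑ i, (m i + 1).choose 2 :=
      ⟨_, rfl⟩
    have hm' : ∀ i, Fin.append m (fun _ : Fin n => 1) i ≤ M 8 ∨ big m = 0 := by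
      intro i
      by_cases hb : big m = 0
      · exact Or.inr hb
      · left
        have hM8 : 1 ≤ M 8 := by
          by_contra h0
          apply hb
          rw [big]
          refine Finset.sum_eq_zero fun i _ => ?_
          have := hm i
          rw [if_neg (by omega)]
        refine Fin.addCases (fun i => ?_) (fun i => ?_) i
        · rw [Fin.append_left]
          exact hm i
        · rw [Fin.append_right]
          exact hM8
    by_cases hb : big m = 0
    · refine main_W P hP δ M m e hstd hm (Or.inr (Or.inl fun i => ?_)) χ hχ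
      by_contra h3
      have h4 := Finset.sum_eq_zero_iff.1 hb i (Finset.mem_univ i)
      rw [if_pos (by omega)] at h4
      omega
    · obtain ⟨p, o, hpo, hN⟩ := cover_Y hstd (by omega) (Fin.append m (fun _ : Fin n => 1))
        (fun i => (hm' i).resolve_right hb) (by rw [big_append]; exact h1)
        (by rw [big_append]; exact h2) (by
          rw [cnd_append']
          omega)
      have hup := upper_W P hP δ M m e he hstd n p o hpo hN
      have hχ' : χ = ((∑ x ∈ Finset.range e, Qd δ M e x : ℕ) : ℤ) -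
          ((∑ i, (m i + 1).choose 2 : ℕ) : ℤ) := by
        rw [hχ, ← hsum]
        push_cast
        ring
      omega

variable {F K : Type*} [Field F] [Field K] [Algebra F K] {s : ℕ} (P : Fin s → Fin 2 → K)
    (hP : AlgebraicIndependent F (fun ij : Fin s × Fin 2 => P ij.1 ij.2))
    (δ : ℕ) (μ : Fin s → ℕ) (c : Fin 9 → Fin s) (hc : Function.Injective c)

include hP hc

/-- Standard classes. -/
theorem final_Y (hanti : Antitone fun l => μ (c l))
    (hmax : ∀ i, i ∉ Set.range c → ∀ l, μ i ≤ μ (c l))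
    (hstd : μ (c 0) + μ (c 1) + μ (c 2) ≤ δ)
    (h : ∑ i, μ i ≤ 3 * δ + 3 ∨
      (∑ i, μ i + ∑ l, μ (c l) ≤ 6 * δ ∧ δ ≠ μ (c 0) + 2 * μ (c 8))) :
    (Module.finrank K (LS δ μ P) : ℤ) =
      max 0 (((δ + 2).choose 2 : ℤ) - ∑ i, ((μ i + 1).choose 2 : ℤ)) := by
  have ha : ∀ i j : Fin 9, i ≤ j → μ (c j) ≤ μ (c i) := fun i j hij => hanti hij
  have a0 := ha 0 1 (by decide)
  have a1 := ha 1 2 (by decide)
  have a2 := ha 2 3 (by decide)
  have a3 := ha 3 4 (by decide)
  have a4 := ha 4 5 (by decide)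
  have a5 := ha 5 6 (by decide)
  have a6 := ha 6 7 (by decide)
  have a7 := ha 7 8 (by decide)
  have hsum : ∑ l, μ (c l) = μ (c 0) + μ (c 1) + μ (c 2) + μ (c 3) + μ (c 4) + μ (c 5) +
      μ (c 6) + μ (c 7) + μ (c 8) := by
    rw [Fin.sum_univ_succ, Fin.sum_univ_eight]
    have e1 : (Fin.succ 0 : Fin 9) = 1 := rfl
    have e2 : (Fin.succ 1 : Fin 9) = 2 := rfl
    have e3 : (Fin.succ 2 : Fin 9) = 3 := rfl
    have e4 : (Fin.succ 3 : Fin 9) = 4 := rfl
    have e5 : (Fin.succ 4 : Fin 9) = 5 := rfl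
    have e6 : (Fin.succ 5 : Fin 9) = 6 := rfl
    have e7 : (Fin.succ 6 : Fin 9) = 7 := rfl
    have e8 : (Fin.succ 7 : Fin 9) = 8 := rfl
    rw [e1, e2, e3, e4, e5, e6, e7, e8]
    ring
  obtain ⟨e, he⟩ : ∃ e, 3 * δ = e + ∑ l, μ (c l) := ⟨3 * δ - ∑ l, μ (c l), by omega⟩
  refine reindex P hP δ μ c hc (fun {r} M m => (∀ i l, m i ≤ M l) ∧
    ∑ i, m i + ∑ l, μ (c l) = ∑ i, μ i) ?_ _ rfl ?_
  · intro r σ hσ
    have hn : ∀ i : Fin r, σ (Fin.natAdd 9 i) ∉ Set.range c := by
      rintro i ⟨l, hl⟩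
      rw [← hσ l] at hl
      have := σ.injective hl
      have h1 := congrArg Fin.val this
      simp only [Fin.val_castAdd, Fin.val_natAdd] at h1
      omega
    refine ⟨fun i l => hmax _ (hn i) l, ?_⟩
    rw [← Equiv.sum_comp σ, Fin.sum_univ_add]
    simp only [hσ]
    ring
  · rintro r P' hP' M m ⟨hm, htot⟩ hM hχ
    have hM' : M = fun l => μ (c l) := funext hM
    have hb := big_le m
    refine main_Y P' hP' δ M m e ⟨?_, ?_, ?_⟩ (fun i => hm i 8) ?_ _ hχ
    · rw [hM']
      exact hanti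
    · rw [hM, hM, hM]
      exact hstd
    · rw [he]
      simp only [hM]
    · by_cases he2 : e ≤ 2
      · exact Or.inl he2
      · right
        rw [hM, hM]
        rcases h with h | ⟨h, h'⟩
        · exact ⟨by omega, Or.inr (by omega)⟩
        · exact ⟨by omega, Or.inl h'⟩

end ShghT
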