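import Pool.Agent.ShghY.MainY

/-!
# Pencils
-/

namespace ShghT

/-- The chain of tents, and where its sum exceeds the maximum. -/
theorem chainP {r : ℕ} (m : Fin r → ℕ) (S : Finset (Fin r)) (x : ℤ) (s : Bool) :
    ∃ (p : Fin r → ℤ) (σ : Fin r → Bool),
      (∀ j, 4 * j ≤ ctr x s → ∑ i ∈ S, tv (m i) (p i) (σ i) j = tv (S.sup m) x s j) ∧
      (∀ j, ctr x s ≤ 4 * j → (∑ i ∈ S, tv (m i) (p i) (σ i) j) ≤ S.sup m + 1) ∧
      (∀ B : ℕ, S.sup m ≤ B → ∀ j, ctr x s ≤ 4 * j →
        ctr x s + 2 * ((∑ i ∈ S with B ≤ m i, m i : ℕ) : ℤ) ≤ 4 * j + 2 * B →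
        (∑ i ∈ S, tv (m i) (p i) (σ i) j) ≤ B) ∧
      ∀ j, ctr x s ≤ 4 * j → 2 * ((∑ i ∈ S, tv (m i) (p i) (σ i) j : ℕ) : ℤ) ≤
        max 0 (ctr x s + 2 * ((∑ i ∈ S, m i : ℕ) : ℤ) + 1 - 4 * j) := by
  classical
  induction S using Finset.induction_on_max_value m generalizing x s with
  | empty =>
    refine ⟨fun _ => 0, fun _ => true, ?_, ?_, ?_, ?_⟩
    · intro j _
      simp [tv_zero]
    · intro j _
      simp
    · intro B _ j _ _
      simp
    · intro j _
      simp
  | insert a S ha hmax ih =>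
    have hodd := ctr_odd x s
    obtain ⟨x', s', hx'⟩ := exists_ctr (ctr x s + 2 * m a) (by omega)
    obtain ⟨p, σ, i1, i2, i4, i3⟩ := ih x' s'
    have hM : S.sup m ≤ m a := Finset.sup_le hmax
    have hsup : (insert a S).sup m = m a := by
      rw [Finset.sup_insert]
      exact sup_eq_left.2 hM
    have hsum : ∀ j, ∑ i ∈ insert a S,
        tv (m i) (Function.update p a x i) (Function.update σ a s i) j =
        tv (m a) x s j + ∑ i ∈ S, tv (m i) (p i) (σ i) j := by
      intro j
      rw [Finset.sum_insert ha, Function.update_self, Function.update_self]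
      congr 1
      apply Finset.sum_congr rfl
      intro i hi
      have hne : i ≠ a := fun h => ha (h ▸ hi)
      rw [Function.update_of_ne hne, Function.update_of_ne hne]
    have hNS : S.sup m ≤ ∑ i ∈ S, m i := by
      refine Finset.sup_le fun i hi => ?_
      exact Finset.single_le_sum (f := fun i => m i) (fun _ _ => Nat.zero_le _) hi
    have hgen : ∀ j, ctr x s ≤ 4 * j → 4 * j ≤ ctr x' s' →
        tv (m a) x s j + tv (S.sup m) x' s' j ≤ max (m a) (S.sup m + 1) := by
      intro j hj h
      have h1 := tv_right (m a) x s j hj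
      have h2 := tv_left (S.sup m) x' s' j h
      rcases Nat.eq_zero_or_pos (S.sup m) with h0 | h0
      · rw [h0] at h2 ⊢
        rw [tv_zero]
        omega
      · omega
    refine ⟨Function.update p a x, Function.update σ a s, ?_, ?_, ?_, ?_⟩
    · intro j hj
      rw [hsum, hsup, i1 j (by omega)]
      have h1 := tv_left (S.sup m) x' s' j (by omega)
      omega
    · intro j hj
      rw [hsup, hsum]
      have h1 := tv_right (m a) x s j hj
      rcases le_total (4 * j) (ctr x' s') with h | h
      · have h2 := hgen j hj h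
        rw [i1 j h]
        omega
      · have h2 := i2 j h
        have h3 := ctr_odd x' s'
        omega
    · intro B hB j hj hj2
      rw [hsup] at hB
      rw [hsum]
      have h1 := tv_right (m a) x s j hj
      rcases hB.lt_or_eq with hlt | heq
      · rcases le_total (4 * j) (ctr x' s') with h | h
        · have h2 := hgen j hj h
          rw [i1 j h]
          omega
        · have h2 := i2 j h
          have h3 := ctr_odd x' s'
          omega
      · have hfil : ∑ i ∈ insert a S with B ≤ m i, m i = m a + ∑ i ∈ S with B ≤ m i, m i := by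
          rw [Finset.filter_insert, if_pos heq.ge, Finset.sum_insert]
          exact fun h => ha (Finset.mem_filter.1 h).1
        rw [hfil] at hj2
        push_cast at hj2
        have hcast : ((∑ i ∈ S with B ≤ m i, m i : ℕ) : ℤ) = ∑ i ∈ S with B ≤ m i, (m i : ℤ) := by
          push_cast
          rfl
        rw [← hcast] at hj2
        rcases le_total (4 * j) (ctr x' s') with h | h
        · rw [i1 j h]
          have h2 := hgen j hj h
          by_cases hS : ∃ i ∈ S, B ≤ m i
          · exfalso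
            obtain ⟨i, hi, hBi⟩ := hS
            have h4 : m i ≤ ∑ i ∈ S with B ≤ m i, m i :=
              Finset.single_le_sum (f := fun i => m i) (fun _ _ => Nat.zero_le _)
                (Finset.mem_filter.2 ⟨hi, hBi⟩)
            have h3 := ctr_odd x' s'
            omega
          · push Not at hS
            rcases Nat.eq_zero_or_pos B with h0 | h0
            · have e1 : m a = 0 := by omega
              have e2 : S.sup m = 0 := by omega
              rw [e1, e2, tv_zero, tv_zero]
              omega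
            · have h4 : S.sup m + 1 ≤ B := by
                have : S.sup m < B := (Finset.sup_lt_iff (by
                  rw [Nat.bot_eq_zero]
                  exact h0)).2 hS
                omega
              omega
        · have h2 := i4 B (hM.trans hB) j h (by omega)
          have h3 := ctr_odd x' s'
          omega
    · intro j hj
      rw [hsum, Finset.sum_insert ha]
      have h1 := tv_right (m a) x s j hj
      rcases le_total (4 * j) (ctr x' s') with h | h
      · have h2 := tv_left (S.sup m) x' s' j h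
        have h3 := ctr_odd x' s'
        rw [i1 j h]
        push_cast
        have h6 : ((∑ i ∈ S, m i : ℕ) : ℤ) = ∑ i ∈ S, (m i : ℤ) := by push_cast; rfl
        rw [← h6]
        omega
      · have h2 := i3 j h
        have h3 := ctr_odd x' s'
        push_cast at h2 ⊢
        omega

/-- The tents of the chain modulo `e = 2 h`, the larger values on one half of the circle. -/
theorem placeP (h : ℕ) (hh : 0 < h) {r : ℕ} (m : Fin r → ℕ) (S : Finset (Fin r))
    (hN : ∑ i ∈ S, m i + 1 ≤ 2 * (2 * h))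
    (hA : ∑ i ∈ S with S.sup m ≤ m i, m i ≤ S.sup m + 2 * h + 2) :
    ∃ (p : Fin r → ℤ) (σ : Fin r → Bool),
      (∀ i, 0 < circ (2 * h) (p i) (σ i) ∧ circ (2 * h) (p i) (σ i) < 4 * ((2 * h : ℕ) : ℤ)) ∧
      ∀ ρ < 2 * h, ∑ i ∈ S, Nr (2 * h) (m i) (p i) (σ i) ρ ≤ S.sup m + 1 ∧
        (0 < ρ → ρ < h → ∑ i ∈ S, Nr (2 * h) (m i) (p i) (σ i) ρ ≤ S.sup m) := by
  classical
  obtain ⟨p, σ, h1, h2, h4, h3⟩ := chainP m S ((h : ℤ) - 1) true
  rw [ctr_true] at h1 h2 h3 h4
  have h4' := h4 (S.sup m) le_rfl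
  have he : 0 < 2 * h := by omega
  have hM : S.sup m ≤ ∑ i ∈ S, m i := by
    refine Finset.sup_le fun i hi => ?_
    exact Finset.single_le_sum (f := fun i => m i) (fun _ _ => Nat.zero_le _) hi
  refine ⟨fun i => CombC_q (2 * h) (p i) (σ i), σ, fun i => CombC_q_circ (2 * h) he _ _,
    fun ρ hρ => ?_⟩
  set H : ℤ → ℕ := fun j => ∑ i ∈ S, tv (m i) (p i) (σ i) j with hH
  set M := S.sup m with hMdef
  set N := ∑ i ∈ S, m i with hNdef
  have hleft : ∀ j : ℤ, j ≤ h - 1 → (H j : ℤ) = max 0 ((M : ℤ) + 2 * (j - (h - 1))) := by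
    intro j hj
    have e1 : H j = tv M ((h : ℤ) - 1) true j := h1 j (by omega)
    have e2 := tv_left M ((h : ℤ) - 1) true j (by rw [ctr_true]; omega)
    rw [ctr_true] at e2
    rw [e1]
    omega
  have hright : ∀ j : ℤ, (h : ℤ) ≤ j → (H j : ℤ) ≤ max 0 ((N : ℤ) + 2 * (h - 1) + 1 - 2 * j) := by
    intro j hj
    have e1 := h3 j (by omega)
    change 2 * ((H j : ℕ) : ℤ) ≤ _ at e1
    omega
  have hM1 : ∀ j : ℤ, (h : ℤ) ≤ j → H j ≤ M + 1 := fun j hj => h2 j (by omega)
  have hM0 : ∀ j : ℤ, 2 * (h : ℤ) < j → H j ≤ M := by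
    intro j hj
    refine h4' j (by omega) ?_
    omega
  have hz1 : ∀ i ∈ S, ∀ j : ℤ, j < -((2 * h : ℕ) : ℤ) → tv (m i) (p i) (σ i) j = 0 := by
    intro i hi j hj
    have h5 : H j = 0 := by
      have := hleft j (by omega)
      push_cast at hj
      omega
    exact Finset.sum_eq_zero_iff.1 h5 i hi
  have hz2 : ∀ i ∈ S, ∀ j : ℤ, ((2 : ℕ) : ℤ) * (2 * h : ℕ) ≤ j → tv (m i) (p i) (σ i) j = 0 := by
    intro i hi j hj
    have h5 : H j = 0 := by
      push_cast at hj
      have := hright j (by omega)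
      omega
    exact Finset.sum_eq_zero_iff.1 h5 i hi
  have hS : ∑ i ∈ S, Nr (2 * h) (m i) (CombC_q (2 * h) (p i) (σ i)) (σ i) ρ =
      ∑ t ∈ Finset.Ico (-1 : ℤ) ((2 : ℕ) : ℤ), H (ρ + t * ((2 * h : ℕ) : ℤ)) := by
    rw [Finset.sum_comm]
    refine Finset.sum_congr rfl fun i hi => ?_
    rw [CombC_q_Nr (2 * h) he _ _ _ ρ hρ]
    exact Nr_eq_sum_tv (2 * h) he (m i) (p i) (σ i) 2 (hz1 i hi) (hz2 i hi) ρ hρ
  rw [hS]
  have hI : Finset.Ico (-1 : ℤ) ((2 : ℕ) : ℤ) = {-1, 0, 1} := by decide
  rw [hI, Finset.sum_insert (by decide), Finset.sum_insert (by decide), Finset.sum_singleton]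
  have e0 : H (ρ + (-1) * ((2 * h : ℕ) : ℤ)) = H (ρ - 2 * h) := by congr 1; push_cast; ring
  have e1 : H (ρ + 0 * ((2 * h : ℕ) : ℤ)) = H ρ := by congr 1; ring
  have e2 : H (ρ + 1 * ((2 * h : ℕ) : ℤ)) = H (ρ + 2 * h) := by congr 1; push_cast; ring
  rw [e0, e1, e2]
  have f0 := hleft (ρ - 2 * h) (by omega)
  have f2 := hright (ρ + 2 * h) (by omega)
  have f2' := hM1 (ρ + 2 * h) (by omega)
  rcases Nat.lt_or_ge ρ h with h0 | h0
  · have f1 := hleft ρ (by omega)
    rcases Nat.eq_zero_or_pos ρ with h00 | h00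
    · constructor
      · omega
      · omega
    · have f3 := hM0 (ρ + 2 * h) (by omega)
      constructor
      · omega
      · intro _ _
        omega
  · have f1 := hright ρ (by omega)
    have f3 : H ρ ≤ M + 1 := hM1 ρ (by omega)
    constructor
    · omega
    · intro _ h6
      omega

end ShghT
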