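import Pool.Agent.ShghY.ChainY
import Pool.Agent.ShghW.MainW

/-!
# Covering the demand if the other multiplicities are small compared with `e`
-/

namespace ShghT

/-- The demand is at least `M 8 + 1` except for pencils. -/
theorem Qd_ge_succ {δ : ℕ} {M : Fin 9 → ℕ} {e : ℕ} (h : Std δ M e) (hne : δ ≠ M 0 + 2 * M 8)
    {x : ℕ} (hx : x < e) : M 8 + 1 ≤ Qd δ M e x := by
  have h1 := min_le_Dg h hx.le
  rw [Qd]
  by_cases ht : 2 * x < e ∧ Tie δ M e (e - x) x
  · rw [if_pos ht]
    rcases ht.2.2.2.2.2 with h2 | h2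
    · by_contra hc
      have h3 := kp_of_le h (show Dg δ M e x ≤ M 8 by omega)
      omega
    · rw [Dg_pen h2.2]
      by_contra hc
      have h4 := min_le_Jt h
      have h5 : Jt δ M = M 8 := by omega
      have h6 : δ - 3 * Jt δ M = M 0 - Jt δ M := h2.1
      have h7 := h.facts
      have h8 := h.std
      omega
  · rw [if_neg ht]
    omega

/-- Filling with simple points. -/
theorem fillY (e : ℕ) (he : 0 < e) {r : ℕ} (m : Fin r → ℕ) (S : Finset (Fin r))
    (hS : ∀ i ∉ S, m i ≤ 1) (Q : ℕ → ℕ) (p : Fin r → ℤ) (σ : Fin r → Bool)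
    (hps : ∀ i, 0 < circ e (p i) (σ i) ∧ circ e (p i) (σ i) < 4 * e)
    (hcov : ∀ ρ < e, ∑ i ∈ S, Nr e (m i) (p i) (σ i) ρ ≤ Q ρ)
    (hT : ∑ x ∈ Finset.range e, Q x ≤ ∑ i, (m i + 1).choose 2) :
    ∃ (p : Fin r → ℤ) (o : Fin r → Option Bool),
      (∀ i, 0 ≤ circO e (p i) (o i) ∧ circO e (p i) (o i) < 4 * (e : ℤ)) ∧
      ∀ x < e, Q x ≤ ∑ i, NO e (m i) (p i) (o i) x := by
  classical
  set A : Finset (Fin r) := Finset.univ.filter fun i => i ∉ S ∧ m i = 1 with hA
  have hsplit : ∀ F : Fin r → ℕ, (∀ i ∉ S, i ∉ A → F i = 0) → ∑ i, F i = ∑ i ∈ S, F i +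
      ∑ i ∈ A, F i := by
    intro F hF
    have hdisj : Disjoint S A := by
      rw [Finset.disjoint_left]
      intro i hi hiA
      exact (Finset.mem_filter.1 hiA).2.1 hi
    rw [← Finset.sum_union hdisj]
    refine (Finset.sum_subset (Finset.subset_univ _) fun i _ hi => ?_).symm
    rw [Finset.mem_union] at hi
    push Not at hi
    exact hF i hi.1 hi.2
  have hm0 : ∀ i ∉ S, i ∉ A → m i = 0 := by
    intro i hi hiA
    have := hS i hi
    by_contra h0
    exact hiA (Finset.mem_filter.2 ⟨Finset.mem_univ _, hi, by omega⟩)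
  have h1 : ∑ i, (m i + 1).choose 2 = ∑ i ∈ S, (m i + 1).choose 2 + A.card := by
    rw [hsplit _ fun i hi hiA => by rw [hm0 i hi hiA]; rfl, Finset.card_eq_sum_ones]
    congr 1
    refine Finset.sum_congr rfl fun i hi => ?_
    rw [(Finset.mem_filter.1 hi).2.2]
    rfl
  have h2 : ∑ ρ ∈ Finset.range e, ∑ i ∈ S, Nr e (m i) (p i) (σ i) ρ =
      ∑ i ∈ S, (m i + 1).choose 2 := by
    rw [Finset.sum_comm]
    exact Finset.sum_congr rfl fun i _ => Nr_sum e he _ _ _
  have hd : ∑ ρ ∈ Finset.range e, (Q ρ - ∑ i ∈ S, Nr e (m i) (p i) (σ i) ρ) ≤ A.card := by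
    have h3 : ∑ ρ ∈ Finset.range e, (Q ρ - ∑ i ∈ S, Nr e (m i) (p i) (σ i) ρ) +
        ∑ ρ ∈ Finset.range e, ∑ i ∈ S, Nr e (m i) (p i) (σ i) ρ =
        ∑ ρ ∈ Finset.range e, Q ρ := by
      rw [← Finset.sum_add_distrib]
      refine Finset.sum_congr rfl fun ρ hρ => ?_
      have := hcov ρ (Finset.mem_range.1 hρ)
      omega
    omega
  obtain ⟨c, hc, hc'⟩ := CombB_dist e A he _ hd
  refine ⟨fun i => if i ∈ A then CombB_pp e (c i) else p i,
    fun i => if i ∈ A then some true else some (σ i), ?_, ?_⟩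
  · intro i
    by_cases hi : i ∈ A
    · simp only [if_pos hi]
      have := CombB_pp_circ e he (c i)
      exact ⟨this.1.le, this.2⟩
    · simp only [if_neg hi]
      exact ⟨(hps i).1.le, (hps i).2⟩
  · intro x hx
    set G : Fin r → ℕ := fun i => NO e (m i) (if i ∈ A then CombB_pp e (c i) else p i)
      (if i ∈ A then some true else some (σ i)) x with hG
    set A' : Finset (Fin r) := A.filter fun i => c i = x with hA'
    have hdisj : Disjoint S A' := by
      rw [Finset.disjoint_left]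
      intro i hi hiA
      exact (Finset.mem_filter.1 (Finset.mem_filter.1 hiA).1).2.1 hi
    have g1 : ∑ i ∈ S, Nr e (m i) (p i) (σ i) x ≤ ∑ i ∈ S, G i := by
      refine Finset.sum_le_sum fun i hi => ?_
      have hiA : i ∉ A := fun h => (Finset.mem_filter.1 h).2.1 hi
      rw [hG]
      simp only [if_neg hiA]
      exact le_rfl
    have g2 : A'.card ≤ ∑ i ∈ A', G i := by
      rw [Finset.card_eq_sum_ones]
      refine Finset.sum_le_sum fun i hi => ?_
      have hiA := (Finset.mem_filter.1 hi).1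
      have hic := (Finset.mem_filter.1 hi).2
      rw [hG]
      simp only [if_pos hiA]
      rw [(Finset.mem_filter.1 hiA).2.2, hic]
      exact CombB_one e he x hx
    have g3 : ∑ i ∈ S, G i + ∑ i ∈ A', G i ≤ ∑ i, G i := by
      rw [← Finset.sum_union hdisj]
      exact Finset.sum_le_sum_of_subset (Finset.subset_univ _)
    have h4 : Q x - ∑ i ∈ S, Nr e (m i) (p i) (σ i) x ≤ A'.card := hc' x hx
    change Q x ≤ ∑ i, G i
    omega

/-- The sum of the multiplicities which are at least two. -/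
def big {r : ℕ} (m : Fin r → ℕ) : ℕ := ∑ i, if 2 ≤ m i then m i else 0

/-- The demand can be covered. -/
theorem cover_Y {δ : ℕ} {M : Fin 9 → ℕ} {e : ℕ} (hstd : Std δ M e) (he : 3 ≤ e) {r : ℕ}
    (m : Fin r → ℕ) (hm : ∀ i, m i ≤ M 8)
    (hbig : big m ≤ 2 * e) (hpen : δ ≠ M 0 + 2 * M 8 ∨ big m ≤ e + 3)
    (hT : ∑ x ∈ Finset.range e, Qd δ M e x ≤ ∑ i, (m i + 1).choose 2) :
    ∃ (p : Fin r → ℤ) (o : Fin r → Option Bool),
      (∀ i, 0 ≤ circO e (p i) (o i) ∧ circO e (p i) (o i) < 4 * (e : ℤ)) ∧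
      ∀ x < e, Qd δ M e x ≤ ∑ i, NO e (m i) (p i) (o i) x := by
  classical
  by_cases hm2 : ∀ i, m i ≤ 2
  · exact cover_W hstd (by omega) m (HypW.mk' hm (Or.inr (Or.inl hm2))) hT
  push Not at hm2
  obtain ⟨i0, hi0⟩ := hm2
  set S : Finset (Fin r) := Finset.univ.filter fun i => 2 ≤ m i with hSdef
  have hS : ∀ i ∉ S, m i ≤ 1 := by
    intro i hi
    by_contra h
    exact hi (Finset.mem_filter.2 ⟨Finset.mem_univ _, by omega⟩)
  have hS2 : ∀ i ∈ S, 2 ≤ m i := fun i hi => (Finset.mem_filter.1 hi).2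
  have hbigS : big m = ∑ i ∈ S, m i := by rw [big, hSdef, Finset.sum_filter]
  have hsup : S.sup m ≤ M 8 := Finset.sup_le fun i _ => hm i
  have hN0 : ∑ i ∈ S, (m i + 0) = big m := by rw [hbigS]; rfl
  by_cases hne : δ = M 0 + 2 * M 8
  · -- pencils
    have hb : big m ≤ e + 3 := by
      rcases hpen with h | h
      · exact absurd hne h
      · exact h
    have hf := hstd.facts
    have hdeg := hstd.deg
    have h9 : ∑ l, M l = M 0 + M 1 + M 2 + M 3 + M 4 + M 5 + M 6 + M 7 + M 8 := by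
      rw [Fin.sum_univ_succ, Fin.sum_univ_eight]
      have e1 : (Fin.succ 0 : Fin 9) = 1 := rfl
      have e2 : (Fin.succ 1 : Fin 9) = 2 := rfl
      have e3 : (Fin.succ 2 : Fin 9) = 3 := rfl
      have e4 : (Fin.succ 3 : Fin 9) = 4 := rfl
      have e5 : (Fin.succ 4 : Fin 9) = 5 := rfl
      have e6 : (Fin.succ 5 : Fin 9) = 6 := rfl
      have e7 : (Fin.succ 6 : Fin 9) = 7 := rfl
      have e8 : (Fin.succ 7 : Fin 9) = 8 := rfl
      rw [e1, e2, e3, e4, e5, e6, e7, e8]
      ring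
    rw [h9] at hdeg
    have heven : ∃ t, e = 2 * t := ⟨M 0 - M 8, by omega⟩
    obtain ⟨t, ht⟩ := heven
    by_cases hpair : ∀ i ∈ S, ∀ i' ∈ S, i ≠ i' → min (m i) (m i') + 1 ≤ M 8
    · by_cases hlt : S.sup m + 1 ≤ M 8
      · obtain ⟨p, σ, hps, hc⟩ := placeA e (by omega) m S 0 (by norm_num) (M 8) hsup
          (fun i hi i' hi' h => hpair i hi i' hi' h) (by rw [hN0]; omega) (by rw [hN0]; omega)
        exact fillY e (by omega) m S hS _ p σ hps (fun ρ hρ => (hc ρ hρ).trans (Qd_ge hstd hρ)) hT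
      · obtain ⟨p, σ, hps, hc⟩ := placeA e (by omega) m S 0 (by norm_num) (M 8) hsup
          (fun i hi i' hi' h => hpair i hi i' hi' h) (by rw [hN0]; omega) (by rw [hN0]; omega)
        exact fillY e (by omega) m S hS _ p σ hps (fun ρ hρ => (hc ρ hρ).trans (Qd_ge hstd hρ)) hT
    · push Not at hpair
      obtain ⟨i, hi, i', hi', hii, hmin⟩ := hpair
      have hmi := hm i
      have hmi' := hm i'
      have hi3 : m i = M 8 := by omega
      have hi3' : m i' = M 8 := by omega
      have hM3 : 3 ≤ M 8 := by have := hm i0; omega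
      have hcard : 2 * M 8 + 2 * (S.card - 2) ≤ ∑ j ∈ S, m j ∧ 2 ≤ S.card := by
        have hsub : ({i, i'} : Finset (Fin r)) ⊆ S := by
          intro j hj
          rcases Finset.mem_insert.1 hj with h | h
          · rw [h]; exact hi
          · rw [Finset.mem_singleton.1 h]; exact hi'
        have hc2 : ({i, i'} : Finset (Fin r)).card = 2 := Finset.card_pair hii
        have h1 := Finset.card_sdiff_add_card_eq_card hsub
        have h2 : ∑ j ∈ S, m j = ∑ j ∈ S \ {i, i'}, m j + ∑ j ∈ ({i, i'} : Finset (Fin r)), m j :=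
          (Finset.sum_sdiff hsub).symm
        rw [Finset.sum_pair hii, hi3, hi3'] at h2
        have h3 : (S \ {i, i'}).card * 2 ≤ ∑ j ∈ S \ {i, i'}, m j := by
          rw [← smul_eq_mul]
          exact Finset.card_nsmul_le_sum _ _ _ fun j hj => hS2 j (Finset.mem_sdiff.1 hj).1
        omega
      have hN1 : ∑ j ∈ S, (m j + 1) = ∑ j ∈ S, m j + S.card := by
        rw [Finset.sum_add_distrib, Finset.card_eq_sum_ones]
      have hkey : ∑ j ∈ S, (m j + 1) ≤ 2 * e := by
        rw [hN1]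
        rw [hbigS] at hb
        by_cases hc2 : S.card = 2
        · have hsub : ({i, i'} : Finset (Fin r)) ⊆ S := by
            intro j hj
            rcases Finset.mem_insert.1 hj with h | h
            · rw [h]; exact hi
            · rw [Finset.mem_singleton.1 h]; exact hi'
          have heq : ({i, i'} : Finset (Fin r)) = S :=
            Finset.eq_of_subset_of_card_le hsub (by rw [Finset.card_pair hii, hc2])
          have h2 : ∑ j ∈ S, m j = 2 * M 8 := by
            rw [← heq, Finset.sum_pair hii, hi3, hi3']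
            ring
          omega
        · omega
      obtain ⟨p, σ, hps, hc⟩ := placeA e (by omega) m S 1 le_rfl (M 8) hsup
        (fun j hj j' hj' h => by have := hm j; omega) hkey (by omega)
      exact fillY e (by omega) m S hS _ p σ hps (fun ρ hρ => (hc ρ hρ).trans (Qd_ge hstd hρ)) hT
  · obtain ⟨p, σ, hps, hc⟩ := placeA e (by omega) m S 0 (by norm_num) (M 8 + 1) (by omega)
      (fun i hi i' hi' h => by have := hm i; omega) (by rw [hN0]; omega) (by rw [hN0]; omega)
    exact fillY e (by omega) m S hS _ p σ hps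
      (fun ρ hρ => (hc ρ hρ).trans (Qd_ge_succ hstd hne hρ)) hT

end ShghT
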