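import Pool.Agent.ShghX.PrimeX
import Pool.Agent.ShghY.MainY

/-!
# Reduction of prime divisors to standard classes with respect to all points
-/

namespace ShghT

open MvPolynomial

variable {F K : Type*} [Field F] [Field K] [Algebra F K] {s : ℕ}

theorem sum_newM (D : ℕ) (b : Fin 3 → Fin s) (hb : Function.Injective b) (μ : Fin s → ℕ)
    (h : OkC D fun t => μ (b t)) (hD : μ (b 0) + μ (b 1) + μ (b 2) ≤ 2 * D) :
    (∑ i, (newM D b μ i : ℤ)) - 3 * (crD D (fun t => μ (b t)) : ℤ) =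
      (∑ i, (μ i : ℤ)) - 3 * D := by
  classical
  set A : Finset (Fin s) := Finset.univ.map ⟨b, hb⟩ with hA
  have hsplit : ∀ f : Fin s → ℤ, ∑ i, f i = f (b 0) + f (b 1) + f (b 2) + ∑ i ∈ Aᶜ, f i := by
    intro f
    rw [← Finset.sum_add_sum_compl A f, hA, Finset.sum_map, Fin.sum_univ_three]
    rfl
  rw [hsplit, hsplit fun i => (μ i : ℤ)]
  have h1 : ∑ i ∈ Aᶜ, (newM D b μ i : ℤ) = ∑ i ∈ Aᶜ, (μ i : ℤ) := by
    refine Finset.sum_congr rfl fun i hi => ?_
    rw [newM_other b μ]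
    intro t ht
    rw [Finset.mem_compl] at hi
    exact hi (by rw [hA, Finset.mem_map]; exact ⟨t, Finset.mem_univ _, ht.symm⟩)
  rw [h1, newM_base b hb, newM_base b hb, newM_base b hb]
  obtain ⟨ha, hb', hc⟩ := h
  have ha' : μ (b 1) + μ (b 2) ≤ D := ha
  have hb'' : μ (b 0) + μ (b 2) ≤ D := hb'
  have hc' : μ (b 0) + μ (b 1) ≤ D := hc
  have e0 : crM D (fun t => μ (b t)) 0 = D - (μ (b 1) + μ (b 2)) := rfl
  have e1 : crM D (fun t => μ (b t)) 1 = D - (μ (b 0) + μ (b 2)) := rfl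
  have e2 : crM D (fun t => μ (b t)) 2 = D - (μ (b 0) + μ (b 1)) := rfl
  have e3 : crD D (fun t => μ (b t)) = 2 * D - (μ (b 0) + μ (b 1) + μ (b 2)) := rfl
  rw [e0, e1, e2, e3]
  push_cast [Nat.cast_sub ha', Nat.cast_sub hb'', Nat.cast_sub hc', Nat.cast_sub hD]
  ring

/-- Reduction of prime divisors to standard classes with respect to all points. The goal may
depend on `K · D`, on `χ` and on the dimension. -/
theorem prime_all (hs : 9 ≤ s) (Goal : ℤ → ℤ → ℕ → Prop) (hline : Goal (-1) 1 1)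
    (hstd : ∀ (D : ℕ) (P : Fin s → Fin 2 → K),
      AlgebraicIndependent F (fun ij : Fin s × Fin 2 => P ij.1 ij.2) → ∀ (μ : Fin s → ℕ)
      (c : Fin 9 → Fin s), Function.Injective c → (Antitone fun l => μ (c l)) →
      (∀ i, i ∉ Set.range c → ∀ l, μ i ≤ μ (c l)) → μ (c 0) + μ (c 1) + μ (c 2) ≤ D →
      ∀ f : MvPolynomial (Fin 2) K, PrimeAt D P μ f →
      Goal ((∑ i, (μ i : ℤ)) - 3 * D)
        (((D + 2).choose 2 : ℤ) - ∑ i, ((μ i + 1).choose 2 : ℤ))
        (Module.finrank K (LS D μ P))) : ∀ (D : ℕ) (P : Fin s → Fin 2 → K),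
    AlgebraicIndependent F (fun ij : Fin s × Fin 2 => P ij.1 ij.2) → ∀ (μ : Fin s → ℕ)
    (f : MvPolynomial (Fin 2) K), PrimeAt D P μ f →
    Goal ((∑ i, (μ i : ℤ)) - 3 * D)
      (((D + 2).choose 2 : ℤ) - ∑ i, ((μ i + 1).choose 2 : ℤ))
      (Module.finrank K (LS D μ P)) := by
  intro D
  induction D using Nat.strong_induction_on with
  | _ D ih =>
  intro P hP μ f hf
  obtain ⟨hdeg, hirr₀, hmem, hex⟩ := id hf
  have hfLS : f ∈ LS D μ P := mem_LS.2 ⟨hdeg, hmem⟩
  have hf0 : f ≠ 0 := by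
    rintro rfl
    exact hex ⟨0, by omega⟩ (Ideal.zero_mem _)
  obtain ⟨c, hc, hanti, hmax⟩ := exists_nine hs μ
  have anti : ∀ i j : Fin 9, i ≤ j → μ (c j) ≤ μ (c i) := fun i j hij => hanti hij
  have hdet := fun i j l hij hil hjl => det_gen (F := F) P hP (i := i) (j := j) (l := l) hij hil hjl
  rcases Nat.lt_or_ge D (μ (c 0) + μ (c 1) + μ (c 2)) with hlt | hge
  · rcases Nat.lt_or_ge D 2 with hD | hD
    · -- lines
      have hle : ∀ i, μ i ≤ D := fun i =>
        (mult_le_totalDegree (P i) (μ i) f hf0 (hmem i)).trans hdeg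
      have hD1 : D = 1 := by
        have h0 := hle (c 0)
        have h1 := hle (c 1)
        have h2 := hle (c 2)
        omega
      subst hD1
      have h0 := hle (c 0)
      have h1 := hle (c 1)
      have h2 := hle (c 2)
      have h01 := anti 0 1 (by decide)
      have h12 := anti 1 2 (by decide)
      have hne : c 0 ≠ c 1 := hc.ne (by decide)
      obtain ⟨hr, hi, hj, hz⟩ := line_case P hdet μ f hfLS hf0 (c 0) (c 1) hne
        (point_ne P hP hne) (by omega) (by omega)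
      have hsum : ∀ g : ℕ → ℤ, g 0 = 0 → g 1 = 1 → ∑ i, g (μ i) = 2 := by
        intro g hg0 hg1
        rw [← Finset.add_sum_erase _ _ (Finset.mem_univ (c 0)),
          ← Finset.add_sum_erase _ _ (Finset.mem_erase.2 ⟨hne.symm, Finset.mem_univ (c 1)⟩),
          Finset.sum_eq_zero, hi, hj, hg1]
        · norm_num
        · intro i hi
          rw [Finset.mem_erase, Finset.mem_erase] at hi
          rw [hz i hi.2.1 hi.1, hg0]
      rw [hr, hsum (fun n => (n : ℤ)) (by norm_num) (by norm_num),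
        hsum (fun n => ((n + 1).choose 2 : ℤ)) (by norm_num) (by norm_num)]
      have h1 : (((1 + 2).choose 2 : ℕ) : ℤ) - 2 = 1 := by norm_num [Nat.choose]
      have h2 : (2 : ℤ) - 3 * ((1 : ℕ) : ℤ) = -1 := by norm_num
      rw [h1, h2]
      exact hline
    · -- the quadratic transformation
      set b : Fin 3 → Fin s := ![c 0, c 1, c 2] with hbdef
      have hb : Function.Injective b := by
        have h01 : c 0 ≠ c 1 := hc.ne (by decide)
        have h02 : c 0 ≠ c 2 := hc.ne (by decide)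
        have h12 : c 1 ≠ c 2 := hc.ne (by decide)
        intro i j hij
        fin_cases i <;> fin_cases j <;> simp_all
      obtain ⟨hOk, hlt', P', f', hP', hf', hfin⟩ := hf.step hP hD b hb hlt
      have hOk' : μ (c 1) + μ (c 2) ≤ D ∧ μ (c 0) + μ (c 2) ≤ D ∧ μ (c 0) + μ (c 1) ≤ D := hOk
      have h01 := anti 0 1 (by decide)
      have h12 := anti 1 2 (by decide)
      have hK := sum_newM D b hb μ hOk (by
        have : μ (c 0) + μ (c 1) + μ (c 2) ≤ 2 * D := by omega
        exact this)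
      have hchi := chi_newM D b hb μ hOk
      have h := ih _ hlt' P' hP' (newM D b μ) f' hf'
      rw [hK, hchi, ← hfin] at h
      exact h
  · exact hstd D P hP μ c hc hanti hmax hge f hf

/-- Prime divisors with `K · C ≤ 3`. -/
theorem prime_K3 (hs : 9 ≤ s) (D : ℕ) (P : Fin s → Fin 2 → K)
    (hP : AlgebraicIndependent F (fun ij : Fin s × Fin 2 => P ij.1 ij.2)) (μ : Fin s → ℕ)
    (f : MvPolynomial (Fin 2) K) (hf : PrimeAt D P μ f) (hK : (∑ i, (μ i : ℤ)) - 3 * D ≤ 3) :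
    (Module.finrank K (LS D μ P) : ℤ) =
        ((D + 2).choose 2 : ℤ) - ∑ i, ((μ i + 1).choose 2 : ℤ) := by
  refine prime_all (F := F) hs (fun E χ h => E ≤ 3 → (h : ℤ) = χ) (fun _ => by norm_num) ?_ D P
    hP μ f hf hK
  intro D P hP μ c hc hanti hmax hstd f hf hE
  have hpos := hf.pos ⟨0, by omega⟩
  have h1 := final_Y P hP D μ c hc hanti hmax hstd (Or.inl (by
    have : ((∑ i, μ i : ℕ) : ℤ) ≤ ((3 * D + 3 : ℕ) : ℤ) := by
      push_cast
      linarith
    exact_mod_cast this))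
  have h3 : (1 : ℤ) ≤ max 0 (((D + 2).choose 2 : ℤ) - ∑ i, ((μ i + 1).choose 2 : ℤ)) := by
    rw [← h1]
    exact_mod_cast hpos
  rw [h1]
  rcases le_total 0 (((D + 2).choose 2 : ℤ) - ∑ i, ((μ i + 1).choose 2 : ℤ)) with h4 | h4
  · exact max_eq_right h4
  · rw [max_eq_left h4] at h3
    omega

end ShghT
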